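import Pool.Agent.Helper45.CF.GoalsC

/-!
# Project CF (MP_d97caa_an), stage 2, packet KCB: the combined step as a *-homomorphism
-/

open scoped ComplexOrder ZeroAtInfty Topology ComplexConjugate NNReal
open TopologicalSpace Filter

namespace Pool.Agent.Helper20.CF2.KCB

open Pool.Agent.Helper34.CAR Pool.Agent.Helper39.CR Pool.Agent.Helper45.CF

noncomputable section

theorem continuous_entry {I B : Type} [Fintype I] [DecidableEq I] [CStarAlgebra B] (i j : I) :
    Continuous fun a : Mt I B => a i j := by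
  refine continuous_iff_continuousAt.2 fun a => ?_
  refine tendsto_iff_norm_sub_tendsto_zero.2 ?_
  have h1 : Tendsto (fun b : Mt I B => ‖b - a‖) (𝓝 a) (𝓝 0) := by
    have h2 : Continuous fun b : Mt I B => ‖b - a‖ := (continuous_id.sub continuous_const).norm
    have h3 := h2.tendsto a
    simpa using h3
  refine squeeze_zero (fun x => norm_nonneg _) (fun x => ?_) h1
  have h4 := Mt.norm_entry_le (x - a) i j
  rwa [Mt.sub_apply] at h4

section

variable {B B' I X : Type} [CStarAlgebra B] [CStarAlgebra B'] [Fintype I] [DecidableEq I]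
  [TopologicalSpace X] [CompactSpace X]

/-- Evaluation of a family of homomorphisms along a map. -/
def R2 {Y : Type} [TopologicalSpace Y] [CompactSpace Y] [LocallyCompactSpace Y]
    (R : B' →⋆ₐ[ℂ] C(Y, Mt I B')) (u : C(X, Y)) :
    C(X, B') →⋆ₐ[ℂ] C(X, Mt I B') where
  toFun f := ⟨fun x => R (f x) (u x), by
    have h1 : Continuous R := AddMonoidHomClass.continuous_of_bound R 1 fun x => by
      rw [one_mul]
      exact NonUnitalStarAlgHom.norm_apply_le R x
    exact (h1.comp f.continuous).eval u.continuous⟩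
  map_one' := by
    ext1 x
    show R 1 (u x) = 1
    rw [map_one]
    rfl
  map_mul' f g := by
    ext1 x
    show R (f x * g x) (u x) = R (f x) (u x) * R (g x) (u x)
    rw [map_mul]
    rfl
  map_zero' := by
    ext1 x
    show R 0 (u x) = 0
    rw [map_zero]
    rfl
  map_add' f g := by
    ext1 x
    show R (f x + g x) (u x) = R (f x) (u x) + R (g x) (u x)
    rw [map_add]
    rfl
  commutes' c := by
    ext1 x
    show R (algebraMap ℂ B' c) (u x) = algebraMap ℂ (Mt I B') c
    rw [AlgHomClass.commutes]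
    rfl
  map_star' f := by
    ext1 x
    show R (star (f x)) (u x) = star (R (f x) (u x))
    rw [map_star]
    rfl

/-- Matrices over a pair. -/
def Th (B B' I X : Type) [CStarAlgebra B] [CStarAlgebra B'] [Fintype I] [DecidableEq I]
    [TopologicalSpace X] [CompactSpace X] :
    Mt I B × C(X, Mt I B') →⋆ₐ[ℂ] Mt I (B × C(X, B')) where
  toFun m := Mt.of fun p q => (m.1 p q, ⟨fun x => m.2 x p q, by
    exact (continuous_entry p q).comp m.2.continuous⟩)
  map_one' := by
    ext p q
    · show (1 : Mt I B) p q = ((1 : Mt I (B × C(X, B'))) p q).1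
      rw [Mt.one_apply, Mt.one_apply]
      split_ifs <;> rfl
    · rename_i x
      show (1 : Mt I B') p q = ((1 : Mt I (B × C(X, B'))) p q).2 x
      rw [Mt.one_apply, Mt.one_apply]
      split_ifs <;> rfl
  map_mul' a b := by
    ext p q
    · rw [Mt.mul_apply, Prod.fst_sum]
      rfl
    · rename_i x
      rw [Mt.mul_apply, Prod.snd_sum, ContinuousMap.sum_apply]
      rfl
  map_zero' := by
    ext p q <;> rfl
  map_add' a b := by
    ext p q <;> rfl
  commutes' c := by
    ext p q
    · show (algebraMap ℂ (Mt I B) c) p q = ((algebraMap ℂ (Mt I (B × C(X, B'))) c) p q).1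
      rw [Mt.algebraMap_apply, Mt.algebraMap_apply]
      split_ifs <;> rfl
    · rename_i x
      show (algebraMap ℂ (Mt I B') c) p q = ((algebraMap ℂ (Mt I (B × C(X, B'))) c) p q).2 x
      rw [Mt.algebraMap_apply, Mt.algebraMap_apply]
      split_ifs <;> rfl
  map_star' a := by
    ext p q <;> rfl

end

theorem t : S_RRH → S_KCB := by
  intro h B B' _ _ P J _ _ t i
  obtain ⟨R, hR⟩ := (h B' P.θ' P.ω').2 J t
  let ev : C(ℕ → Sphere2, Sphere2) := ⟨fun x => x i, continuous_apply i⟩
  have hsph : LocallyCompactSpace Sphere2 := inferInstance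
  refine ⟨(Th B B' ((Fin 2 ⊕ Unit) ⊕ J) (ℕ → Sphere2)).comp
    (((kst P.θ P.ω (t.comp P.inc)).comp (StarAlgHom.fst ℂ B C(ℕ → Sphere2, B'))).prod
      ((R2 R ev).comp (StarAlgHom.snd ℂ B C(ℕ → Sphere2, B')))), ?_⟩
  intro b f p q
  refine ⟨rfl, fun x => ?_⟩
  show R (f x) (x i) p q = _
  rw [hR]

end

end Pool.Agent.Helper20.CF2.KCB
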